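import Mathlib

namespace Pool.Agent.Results.MP_a663df_lc.Undecidable

open Nat.Partrec (Code)
open Nat.Partrec.Code

/-- The Knuth relations over a totally ordered alphabet:
`z x y = x z y` for `x ≤ y < z` and `y x z = y z x` for `x < y ≤ z`. -/
inductive Knuth (L : Type) [LinearOrder L] : FreeMonoid L → FreeMonoid L → Prop
  | first (x y z : L) : x ≤ y → y < z →
      Knuth L (.of z * .of x * .of y) (.of x * .of z * .of y)
  | second (x y z : L) : x < y → y ≤ z →
      Knuth L (.of y * .of x * .of z) (.of y * .of z * .of x)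

/-- The plactic monoid `P(L) = ⟨L | Knuth relations⟩`. -/
abbrev Plactic (L : Type) [LinearOrder L] : Type := PresentedMonoid (Knuth L)

/-- The value in `P(L)` of a word over variables (`Sum.inl`) and constants (`Sum.inr`). -/
def value {L : Type} [LinearOrder L] (s : ℕ → Plactic L) (w : List (ℕ ⊕ L)) : Plactic L :=
  (w.map (Sum.elim s (PresentedMonoid.of (Knuth L)))).prod

/-- Solvability in `P(L)` of a finite system of equations with constants. -/
def Solvable {L : Type} [LinearOrder L] (S : List (List (ℕ ⊕ L) × List (ℕ ⊕ L))) : Prop :=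
  ∃ s : ℕ → Plactic L, ∀ e ∈ S, value s e.1 = value s e.2

/-- The system `caX = acX, Xac = Xca, XaX = XXa, cXX = XcX`. -/
def sys {L : Type} (a c : L) : List (List (ℕ ⊕ L) × List (ℕ ⊕ L)) :=
  [([.inr c, .inr a, .inl 0], [.inr a, .inr c, .inl 0]),
   ([.inl 0, .inr a, .inr c], [.inl 0, .inr c, .inr a]),
   ([.inl 0, .inr a, .inl 0], [.inl 0, .inl 0, .inr a]),
   ([.inr c, .inl 0, .inl 0], [.inl 0, .inr c, .inl 0])]

section
variable {L : Type} [LinearOrder L]

/-- The action of the letters on `ℕ`. -/
def act (a c x : L) (n : ℕ) : ℕ :=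
  if x = a then n + 1 else if x = c then n - 1 else n

/-- The images of the letters in `End ℕ`. -/
def img (a c x : L) : Function.End ℕ := act a c x

theorem act_cases {a c : L} (hac : a < c) (hno : ∀ z, a < z → ¬ z < c) (z : L) :
    (z = a ∧ ∀ n, act a c z n = n + 1) ∨ (z = c ∧ ∀ n, act a c z n = n - 1) ∨
      ((z < a ∨ c < z) ∧ ∀ n, act a c z n = n) := by
  have hne : a ≠ c := ne_of_lt hac
  rcases lt_trichotomy z a with h1 | h1 | h1
  · exact Or.inr (Or.inr ⟨Or.inl h1, fun n => (if_neg (ne_of_lt h1)).trans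
      (if_neg (ne_of_lt (h1.trans hac)))⟩)
  · exact Or.inl ⟨h1, fun n => if_pos h1⟩
  · rcases lt_trichotomy z c with h2 | h2 | h2
    · exact absurd h2 (hno z h1)
    · exact Or.inr (Or.inl ⟨h2, fun n => (if_neg (ne_of_lt h1).symm).trans (if_pos h2)⟩)
    · exact Or.inr (Or.inr ⟨Or.inr h2, fun n => (if_neg (ne_of_lt h1).symm).trans
        (if_neg (ne_of_lt h2).symm)⟩)

theorem img_rel {a c : L} (hac : a < c) (hno : ∀ z, a < z → ¬ z < c) (u v : FreeMonoid L)
    (h : Knuth L u v) : FreeMonoid.lift (img a c) u = FreeMonoid.lift (img a c) v := by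
  cases h with
  | first x y z hxy hyz =>
    funext n
    show act a c z (act a c x (act a c y n)) = act a c x (act a c z (act a c y n))
    rcases act_cases hac hno x with ⟨hx, hx'⟩ | ⟨hx, hx'⟩ | ⟨hx, hx'⟩ <;>
      rcases act_cases hac hno y with ⟨hy, hy'⟩ | ⟨hy, hy'⟩ | ⟨hy, hy'⟩ <;>
      rcases act_cases hac hno z with ⟨hz, hz'⟩ | ⟨hz, hz'⟩ | ⟨hz, hz'⟩ <;>
      simp only [hx', hy', hz'] <;>
      first
      | (exfalso; subst_vars; order)
      | omega
      | (exfalso; rcases hx with hx | hx <;> subst_vars <;> order)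
      | (exfalso; rcases hy with hy | hy <;> subst_vars <;> order)
  | second x y z hxy hyz =>
    funext n
    show act a c y (act a c x (act a c z n)) = act a c y (act a c z (act a c x n))
    rcases act_cases hac hno x with ⟨hx, hx'⟩ | ⟨hx, hx'⟩ | ⟨hx, hx'⟩ <;>
      rcases act_cases hac hno y with ⟨hy, hy'⟩ | ⟨hy, hy'⟩ | ⟨hy, hy'⟩ <;>
      rcases act_cases hac hno z with ⟨hz, hz'⟩ | ⟨hz, hz'⟩ | ⟨hz, hz'⟩ <;>
      simp only [hx', hy', hz'] <;>
      first
      | (exfalso; subst_vars; order)
      | omega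
      | (exfalso; rcases hx with hx | hx <;> subst_vars <;> order)
      | (exfalso; rcases hy with hy | hy <;> subst_vars <;> order)

theorem form {a c : L} (hac : a < c) (hno : ∀ z, a < z → ¬ z < c) (P : Plactic L) :
    ∃ j k : ℕ, ∀ n : ℕ, PresentedMonoid.lift (img a c) (img_rel hac hno) P n = (n - k) + j := by
  induction P using PresentedMonoid.inductionOn with | _ u
  induction u using FreeMonoid.inductionOn' with
  | one => exact ⟨0, 0, fun n => rfl⟩
  | of_mul x u ih =>
    obtain ⟨j, k, h⟩ := ih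
    have hx : ∀ n : ℕ, PresentedMonoid.lift (img a c) (img_rel hac hno)
        (PresentedMonoid.mk (Knuth L) (FreeMonoid.of x * u)) n = act a c x ((n - k) + j) := by
      intro n
      rw [← h n]
      have hm : PresentedMonoid.lift (img a c) (img_rel hac hno)
          (PresentedMonoid.mk (Knuth L) (FreeMonoid.of x * u)) =
          img a c x * PresentedMonoid.lift (img a c) (img_rel hac hno)
            (PresentedMonoid.mk (Knuth L) u) := by
        rw [map_mul, map_mul]
        rfl
      exact congrFun hm n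
    rcases act_cases hac hno x with ⟨-, hx'⟩ | ⟨-, hx'⟩ | ⟨-, hx'⟩
    · exact ⟨j + 1, k, fun n => by rw [hx, hx']; omega⟩
    · rcases Nat.eq_zero_or_pos j with hj | hj
      · exact ⟨0, k + 1, fun n => by rw [hx, hx']; omega⟩
      · exact ⟨j - 1, k, fun n => by rw [hx, hx']; omega⟩
    · exact ⟨j, k, fun n => by rw [hx, hx']⟩

/-- The system is solvable exactly when `a` and `c` are not adjacent. -/
theorem sys_iff {a c : L} (hac : a < c) : Solvable (sys a c) ↔ ∃ z, a < z ∧ z < c := by
  constructor
  · rintro ⟨s, hs⟩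
    by_contra hcon
    push Not at hcon
    have hno : ∀ z, a < z → ¬ z < c := fun z hz => not_lt.2 (hcon z hz)
    let φ : Plactic L →* Function.End ℕ := PresentedMonoid.lift (img a c) (img_rel hac hno)
    obtain ⟨j, k, hf⟩ := form hac hno (s 0)
    have hf' : ∀ n : ℕ, φ (s 0) n = (n - k) + j := hf
    have e1 := congrArg φ (hs _ (List.mem_cons_self))
    have e2 := congrArg φ (hs _ (List.mem_cons_of_mem _ List.mem_cons_self))
    have e3 := congrArg φ (hs _ (List.mem_cons_of_mem _ (List.mem_cons_of_mem _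
      List.mem_cons_self)))
    have e4 := congrArg φ (hs _ (List.mem_cons_of_mem _ (List.mem_cons_of_mem _
      (List.mem_cons_of_mem _ List.mem_cons_self))))
    simp only [value, List.map_cons, List.map_nil, List.prod_cons, List.prod_nil, Sum.elim_inl,
      Sum.elim_inr, mul_one, map_mul] at e1 e2 e3 e4
    have ha : ∀ n, act a c a n = n + 1 := fun n => if_pos rfl
    have hc : ∀ n, act a c c n = n - 1 := fun n => (if_neg (ne_of_lt hac).symm).trans (if_pos rfl)
    have f1 : act a c c (act a c a (φ (s 0) 0)) = act a c a (act a c c (φ (s 0) 0)) :=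
      congrFun e1 0
    have f2 : φ (s 0) (act a c a (act a c c 0)) = φ (s 0) (act a c c (act a c a 0)) :=
      congrFun e2 0
    have f3 : φ (s 0) (act a c a (φ (s 0) 0)) = φ (s 0) (φ (s 0) (act a c a 0)) := congrFun e3 0
    have f4 : act a c c (φ (s 0) (φ (s 0) 0)) = φ (s 0) (act a c c (φ (s 0) 0)) := congrFun e4 0
    simp only [ha, hc, hf'] at f1 f2 f3 f4
    omega
  · rintro ⟨z, h1, h2⟩
    refine ⟨fun _ => PresentedMonoid.of (Knuth L) z, ?_⟩
    have r1 := PresentedMonoid.mk_eq_mk_of_rel (Knuth.first a z c h1.le h2)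
    have r2 := PresentedMonoid.mk_eq_mk_of_rel (Knuth.second a z c h1 h2.le)
    have r3 := PresentedMonoid.mk_eq_mk_of_rel (Knuth.second a z z h1 le_rfl)
    have r4 := PresentedMonoid.mk_eq_mk_of_rel (Knuth.first z z c le_rfl h2)
    intro e he
    simp only [sys, List.mem_cons, List.not_mem_nil, or_false] at he
    rcases he with rfl | rfl | rfl | rfl
    · simp only [value, List.map_cons, List.map_nil, List.prod_cons, List.prod_nil, Sum.elim_inl,
        Sum.elim_inr, mul_one]
      rw [← mul_assoc, ← mul_assoc]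
      exact r1
    · simp only [value, List.map_cons, List.map_nil, List.prod_cons, List.prod_nil, Sum.elim_inl,
        Sum.elim_inr, mul_one]
      rw [← mul_assoc, ← mul_assoc]
      exact r2
    · simp only [value, List.map_cons, List.map_nil, List.prod_cons, List.prod_nil, Sum.elim_inl,
        Sum.elim_inr, mul_one]
      rw [← mul_assoc, ← mul_assoc]
      exact r3
    · simp only [value, List.map_cons, List.map_nil, List.prod_cons, List.prod_nil, Sum.elim_inl,
        Sum.elim_inr, mul_one]
      rw [← mul_assoc, ← mul_assoc]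
      exact r4

end

/-! ### The recursive order -/

/-- Machine `e` halts on input `0` exactly at step `t`. -/
def exactly (e t : ℕ) : Bool :=
  (evaln (t + 1) (Denumerable.ofNat Code e) 0).isSome &&
    !(evaln t (Denumerable.ofNat Code e) 0).isSome

theorem isSome_mono {k l : ℕ} (h : k ≤ l) (c : Code) (hk : (evaln k c 0).isSome) :
    (evaln l c 0).isSome := by
  obtain ⟨x, hx⟩ := Option.isSome_iff_exists.1 hk
  exact Option.isSome_iff_exists.2 ⟨x, evaln_mono h hx⟩

theorem exactly_unique {e s t : ℕ} (hs : exactly e s = true) (ht : exactly e t = true) : s = t := by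
  simp only [exactly, Bool.and_eq_true, Bool.not_eq_true'] at hs ht
  rcases lt_trichotomy s t with h | h | h
  · have := isSome_mono (show s + 1 ≤ t from h) _ hs.1
    rw [ht.2] at this
    exact absurd this (by simp)
  · exact h
  · have := isSome_mono (show t + 1 ≤ s from h) _ ht.1
    rw [hs.2] at this
    exact absurd this (by simp)

theorem exists_exactly {c : Code} (h : (eval c 0).Dom) : ∃ t, exactly (Encodable.encode c) t := by
  classical
  obtain ⟨x, hx⟩ := Part.dom_iff_mem.1 h
  obtain ⟨k, hk⟩ := evaln_complete.1 hx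
  have hex : ∃ k, (evaln k c 0).isSome := ⟨k, Option.isSome_iff_exists.2 ⟨x, hk⟩⟩
  have h1 := Nat.find_spec hex
  have h0 : Nat.find hex ≠ 0 := by
    intro h0
    rw [h0] at h1
    simp [evaln] at h1
  obtain ⟨t, ht⟩ := Nat.exists_eq_succ_of_ne_zero h0
  refine ⟨t, ?_⟩
  have h2 := Nat.find_min hex (m := t) (by omega)
  rw [ht] at h1
  simp only [exactly, Denumerable.ofNat_encode, Bool.and_eq_true, Bool.not_eq_true']
  exact ⟨h1, by simpa using h2⟩

theorem dom_of_exactly {c : Code} {t : ℕ} (h : exactly (Encodable.encode c) t) :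
    (eval c 0).Dom := by
  simp only [exactly, Denumerable.ofNat_encode, Bool.and_eq_true] at h
  obtain ⟨x, hx⟩ := Option.isSome_iff_exists.1 h.1
  exact Part.dom_iff_mem.2 ⟨x, evaln_sound hx⟩

/-- Rank of the element number `t` inside the part of the order belonging to machine `e`. -/
def rank (e t : ℕ) : ℕ :=
  if t = 0 then 0 else if t = 1 then 2 else if exactly e (t - 2) then 1 else t + 1

theorem rank_cases (e t : ℕ) : (t = 0 ∧ rank e t = 0) ∨ (t = 1 ∧ rank e t = 2) ∨
    (2 ≤ t ∧ exactly e (t - 2) = true ∧ rank e t = 1) ∨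
    (2 ≤ t ∧ exactly e (t - 2) ≠ true ∧ rank e t = t + 1) := by
  unfold rank
  by_cases t0 : t = 0
  · exact Or.inl ⟨t0, if_pos t0⟩
  by_cases t1 : t = 1
  · exact Or.inr (Or.inl ⟨t1, (if_neg t0).trans (if_pos t1)⟩)
  by_cases et : exactly e (t - 2) = true
  · exact Or.inr (Or.inr (Or.inl ⟨by omega, et, by rw [if_neg t0, if_neg t1, if_pos et]⟩))
  · exact Or.inr (Or.inr (Or.inr ⟨by omega, et, by rw [if_neg t0, if_neg t1, if_neg et]⟩))

theorem rank_inj {e s t : ℕ} (h : rank e s = rank e t) : s = t := by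
  rcases rank_cases e s with ⟨h1, h2⟩ | ⟨h1, h2⟩ | ⟨h1, h3, h2⟩ | ⟨h1, h3, h2⟩ <;>
    rcases rank_cases e t with ⟨g1, g2⟩ | ⟨g1, g2⟩ | ⟨g1, g3, g2⟩ | ⟨g1, g3, g2⟩ <;>
    first
    | omega
    | (have := exactly_unique h3 g3; omega)

/-- The key of a natural number. -/
def keyOf (n : ℕ) : ℕ ×ₗ ℕ := toLex (n.unpair.1, rank n.unpair.1 n.unpair.2)

theorem keyOf_inj : Function.Injective keyOf := by
  intro m n h
  have h' : (m.unpair.1, rank m.unpair.1 m.unpair.2) = (n.unpair.1, rank n.unpair.1 n.unpair.2) := h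
  obtain ⟨h1, h2⟩ := Prod.mk.inj h'
  rw [h1] at h2
  have h3 := rank_inj h2
  rw [← Nat.pair_unpair m, ← Nat.pair_unpair n, h1, h3]

/-- The order. -/
@[reducible] noncomputable def order : LinearOrder ℕ := LinearOrder.lift' keyOf keyOf_inj

theorem order_lt (m n : ℕ) : order.lt m n ↔ m.unpair.1 < n.unpair.1 ∨
    (m.unpair.1 = n.unpair.1 ∧ rank m.unpair.1 m.unpair.2 < rank n.unpair.1 n.unpair.2) := by
  show keyOf m < keyOf n ↔ _
  rw [Prod.Lex.lt_iff]
  rfl

theorem order_lt_pair (e s t : ℕ) :
    order.lt (Nat.pair e s) (Nat.pair e t) ↔ rank e s < rank e t := by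
  rw [order_lt]
  simp only [Nat.unpair_pair]
  constructor
  · rintro (h | h)
    · exact absurd h (lt_irrefl _)
    · exact h.2
  · intro h
    exact Or.inr ⟨trivial, h⟩

/-- The elements `(e, 0)` and `(e, 1)` are not adjacent exactly when machine `e` halts. -/
theorem gap_iff (c : Code) :
    (∃ z, order.lt (Nat.pair (Encodable.encode c) 0) z ∧
      order.lt z (Nat.pair (Encodable.encode c) 1)) ↔ (eval c 0).Dom := by
  constructor
  · rintro ⟨z, h1, h2⟩
    rw [order_lt] at h1 h2
    simp only [Nat.unpair_pair] at h1 h2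
    have r0 : rank (Encodable.encode c) 0 = 0 := rfl
    have r1 : rank (Encodable.encode c) 1 = 2 := rfl
    rw [r0] at h1
    rw [r1] at h2
    have hz : z.unpair.1 = Encodable.encode c := by omega
    rw [hz] at h1 h2
    have hr : rank (Encodable.encode c) z.unpair.2 = 1 := by omega
    rcases rank_cases (Encodable.encode c) z.unpair.2 with ⟨g1, g2⟩ | ⟨g1, g2⟩ | ⟨g1, g3, g2⟩ |
      ⟨g1, g3, g2⟩
    · omega
    · omega
    · exact dom_of_exactly g3
    · omega
  · intro h
    obtain ⟨t, ht⟩ := exists_exactly h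
    have rt : rank (Encodable.encode c) (t + 2) = 1 := by
      simp [rank, ht]
    refine ⟨Nat.pair (Encodable.encode c) (t + 2), ?_, ?_⟩
    · rw [order_lt_pair, rt]
      exact Nat.zero_lt_one
    · rw [order_lt_pair, rt]
      exact Nat.one_lt_two

/-! ### Computability -/

theorem primrec_exactly : Primrec (fun p : ℕ × ℕ => exactly p.1 p.2) := by
  have h1 : Primrec (fun p : ℕ × ℕ => (evaln (p.2 + 1) (Denumerable.ofNat Code p.1) 0).isSome) :=
    Primrec.option_isSome.comp (primrec_evaln.comp (Primrec.pair (Primrec.pair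
      (Primrec.succ.comp Primrec.snd) ((Primrec.ofNat Code).comp Primrec.fst)) (Primrec.const 0)))
  have h2 : Primrec (fun p : ℕ × ℕ => (evaln p.2 (Denumerable.ofNat Code p.1) 0).isSome) :=
    Primrec.option_isSome.comp (primrec_evaln.comp (Primrec.pair (Primrec.pair
      Primrec.snd ((Primrec.ofNat Code).comp Primrec.fst)) (Primrec.const 0)))
  exact Primrec.and.comp h1 (Primrec.not.comp h2)

theorem primrec_rank : Primrec (fun p : ℕ × ℕ => rank p.1 p.2) := by
  unfold rank
  refine Primrec.ite (Primrec.eq.comp Primrec.snd (Primrec.const 0)) (Primrec.const 0) ?_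
  refine Primrec.ite (Primrec.eq.comp Primrec.snd (Primrec.const 1)) (Primrec.const 2) ?_
  refine Primrec.ite ?_ (Primrec.const 1) (Primrec.succ.comp Primrec.snd)
  refine Primrec.eq.comp ?_ (Primrec.const true)
  exact primrec_exactly.comp (Primrec.pair Primrec.fst
    (Primrec.nat_sub.comp Primrec.snd (Primrec.const 2)))

theorem computable_order : ComputablePred (fun p : ℕ × ℕ => order.lt p.1 p.2) := by
  have u1 : Primrec (fun p : ℕ × ℕ => p.1.unpair.1) :=
    Primrec.fst.comp (Primrec.unpair.comp Primrec.fst)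
  have u2 : Primrec (fun p : ℕ × ℕ => p.2.unpair.1) :=
    Primrec.fst.comp (Primrec.unpair.comp Primrec.snd)
  have r1 : Primrec (fun p : ℕ × ℕ => rank p.1.unpair.1 p.1.unpair.2) :=
    primrec_rank.comp (Primrec.unpair.comp Primrec.fst)
  have r2 : Primrec (fun p : ℕ × ℕ => rank p.2.unpair.1 p.2.unpair.2) :=
    primrec_rank.comp (Primrec.unpair.comp Primrec.snd)
  have h : PrimrecPred (fun p : ℕ × ℕ => p.1.unpair.1 < p.2.unpair.1 ∨
      (p.1.unpair.1 = p.2.unpair.1 ∧
        rank p.1.unpair.1 p.1.unpair.2 < rank p.2.unpair.1 p.2.unpair.2)) :=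
    (Primrec.nat_lt.comp u1 u2).or ((Primrec.eq.comp u1 u2).and (Primrec.nat_lt.comp r1 r2))
  exact h.computablePred.of_eq (fun p => (order_lt p.1 p.2).symm)

theorem primrec_word {α : Type} [Primcodable α] {f g h : α → ℕ ⊕ ℕ} (hf : Primrec f)
    (hg : Primrec g) (hh : Primrec h) : Primrec (fun a => [f a, g a, h a]) :=
  Primrec.list_cons.comp hf (Primrec.list_cons.comp hg (Primrec.list_cons.comp hh
    (Primrec.const [])))

theorem primrec_sys : Primrec (fun p : ℕ × ℕ => sys p.1 p.2) := by
  have a : Primrec (fun p : ℕ × ℕ => (Sum.inr p.1 : ℕ ⊕ ℕ)) := Primrec.sumInr.comp Primrec.fst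
  have c : Primrec (fun p : ℕ × ℕ => (Sum.inr p.2 : ℕ ⊕ ℕ)) := Primrec.sumInr.comp Primrec.snd
  have x : Primrec (fun _ : ℕ × ℕ => (Sum.inl 0 : ℕ ⊕ ℕ)) := Primrec.const _
  unfold sys
  exact Primrec.list_cons.comp (Primrec.pair (primrec_word c a x) (primrec_word a c x))
    (Primrec.list_cons.comp (Primrec.pair (primrec_word x a c) (primrec_word x c a))
    (Primrec.list_cons.comp (Primrec.pair (primrec_word x a x) (primrec_word x x a))
    (Primrec.list_cons.comp (Primrec.pair (primrec_word c x x) (primrec_word x c x))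
    (Primrec.const []))))

theorem comp_pred {α β : Type} [Primcodable α] [Primcodable β] {p : β → Prop} {f : α → β}
    (h : ComputablePred p) (hf : Computable f) : ComputablePred (fun a => p (f a)) := by
  obtain ⟨d, hd⟩ := h
  exact ⟨fun a => d (f a), hd.comp hf⟩

/-- **Main theorem.** There is a recursive total order `<` on `ℕ` for which the Diophantine problem
for the plactic monoid `P(ℕ, <)` is undecidable; already the solvability of the four equations
`caX = acX, Xac = Xca, XaX = XXa, cXX = XcX` in one unknown, with the constants `a, c` as input,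
is undecidable. -/
theorem result : ∃ o : LinearOrder ℕ, ComputablePred (fun p : ℕ × ℕ => o.lt p.1 p.2) ∧
    (¬ ComputablePred (fun S : List (List (ℕ ⊕ ℕ) × List (ℕ ⊕ ℕ)) => @Solvable ℕ o S)) ∧
    (¬ ComputablePred (fun p : ℕ × ℕ => @Solvable ℕ o (sys p.1 p.2))) := by
  have main : ¬ ComputablePred (fun p : ℕ × ℕ => @Solvable ℕ order (sys p.1 p.2)) := by
    intro h
    apply ComputablePred.halting_problem 0
    have hc : Computable (fun c : Code =>
        ((Nat.pair (Encodable.encode c) 0, Nat.pair (Encodable.encode c) 1) : ℕ × ℕ)) :=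
      (Primrec.pair (Primrec₂.natPair.comp Primrec.encode (Primrec.const 0))
        (Primrec₂.natPair.comp Primrec.encode (Primrec.const 1))).to_comp
    refine (comp_pred h hc).of_eq (fun c => ?_)
    have hlt : order.lt (Nat.pair (Encodable.encode c) 0) (Nat.pair (Encodable.encode c) 1) :=
      (order_lt_pair _ _ _).2 Nat.zero_lt_two
    rw [@sys_iff ℕ order _ _ hlt]
    exact gap_iff c
  refine ⟨order, computable_order, ?_, main⟩
  intro h
  exact main (comp_pred h primrec_sys.to_comp)

end Pool.Agent.Results.MP_a663df_lc.Undecidable
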